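import Pool.Agent.H29.BH.Targets1
import Pool.Agent.H49.BG.AC
import Pool.Agent.H49.BG.GL
import Pool.Agent.H53.BG.L_NM

/-!
# F_5 of bh_modules: the degenerate complete sum modulo an ideal (MP_52e316_nt)
-/

set_option autoImplicit false

open NumberField UniqueFactorizationMonoid

namespace Pool.Agent.H68.BH

open Pool.Agent.H23.LB
open Pool.Agent.H29.TC (dvs LC MC)
open Pool.Agent.H23.BG (c4 gd)
open Pool.Agent.H49.BG (gl_cop ac_card ac_prime)

/-- the statement of the induction -/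
def GT (K : Type) [Field K] [NumberField K] (f : Ideal (𝓞 K)) : Prop :=
  f ≠ ⊥ → ∃ S : Finset (Ideal (𝓞 K)), (∀ P ∈ S, P.IsPrime ∧ f ≤ P) ∧
    ∀ [Fintype (𝓞 K ⧸ f)] (η : 𝓞 K ⧸ f → ℂ), LC f η → ∀ a : Fin 4 → 𝓞 K, a 0 = a 2 →
      ‖c4 η (fun i => Ideal.Quotient.mk f (a i))‖ ≤
        2 ^ S.card * Nf K (f ⊔ Ideal.span {a 1 - a 3})

theorem gt_top (K : Type) [Field K] [NumberField K] : GT K ⊤ := by
  intro _
  refine ⟨∅, by simp, ?_⟩
  intro _ η hη a _
  have hN : Nf K ((⊤ : Ideal (𝓞 K)) ⊔ Ideal.span {a 1 - a 3}) = 1 := by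
    rw [top_sup_eq]
    unfold Nf
    rw [Ideal.absNorm_top]
    simp
  have hs : Subsingleton (𝓞 K ⧸ (⊤ : Ideal (𝓞 K))) := inferInstance
  have he : ∀ x, η x = 1 := fun x => by
    rw [← hη.mc.one]
    exact congrArg η (Subsingleton.elim _ _)
  have hc : c4 η (fun i => Ideal.Quotient.mk (⊤ : Ideal (𝓞 K)) (a i)) = 1 := by
    unfold c4
    rw [Fintype.sum_subsingleton _ 0]
    simp [he]
  rw [hc, hN]
  simp

theorem gt_prod (hCR : Pool.Agent.H23.BG.L_CR) (K : Type) [Field K] [NumberField K]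
    {f g : Ideal (𝓞 K)} (hfg : f ⊔ g = ⊤) (h1 : GT K f) (h2 : GT K g) : GT K (f * g) := by
  classical
  intro hne
  have hf : f ≠ ⊥ := by rintro rfl; simp at hne
  have hg : g ≠ ⊥ := by rintro rfl; simp at hne
  obtain ⟨S, hS, HS⟩ := h1 hf
  obtain ⟨T, hT, HT⟩ := h2 hg
  refine ⟨S ∪ T, ?_, ?_⟩
  · intro P hP
    rcases Finset.mem_union.1 hP with h | h
    · exact ⟨(hS P h).1, Ideal.mul_le_left.trans (hS P h).2⟩
    · exact ⟨(hT P h).1, Ideal.mul_le_right.trans (hT P h).2⟩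
  · intro _ η hη a h02
    have : Fintype (𝓞 K ⧸ f) := @Fintype.ofFinite _ (Ideal.finiteQuotientOfFreeOfNeBot f hf)
    have : Fintype (𝓞 K ⧸ g) := @Fintype.ofFinite _ (Ideal.finiteQuotientOfFreeOfNeBot g hg)
    obtain ⟨η₁, η₂, l1, l2, hc⟩ := hCR K f g hf hg hfg η hη
    have n1 : Nf K (f * g ⊔ Ideal.span {a 1 - a 3}) =
        Nf K (f ⊔ Ideal.span {a 1 - a 3}) * Nf K (g ⊔ Ideal.span {a 1 - a 3}) :=
      (Pool.Agent.H53.BG.pf_L_NM K f g hf hg hfg (fun i => if i = 0 then a 3 else a 1)).1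
    have hd : Disjoint S T := by
      rw [Finset.disjoint_left]
      intro P h3 h4
      have h5 : f ⊔ g ≤ P := sup_le (hS P h3).2 (hT P h4).2
      rw [hfg, top_le_iff] at h5
      exact (hS P h3).1.ne_top h5
    rw [Finset.card_union_of_disjoint hd, hc a, norm_mul, n1, pow_add]
    calc ‖c4 η₁ (fun i => Ideal.Quotient.mk f (a i))‖ *
        ‖c4 η₂ (fun i => Ideal.Quotient.mk g (a i))‖ ≤
        (2 ^ S.card * Nf K (f ⊔ Ideal.span {a 1 - a 3})) *
          (2 ^ T.card * Nf K (g ⊔ Ideal.span {a 1 - a 3})) :=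
          mul_le_mul (HS η₁ l1 a h02) (HT η₂ l2 a h02) (norm_nonneg _)
            ((norm_nonneg _).trans (HS η₁ l1 a h02))
      _ = _ := by ring

open Pool.Agent.H29.BH in
theorem gt_pow (h4 : F_4) (K : Type) [Field K] [NumberField K] {P : Ideal (𝓞 K)} (i : ℕ)
    (hP : Prime P) : GT K (P ^ i) := by
  have hPp : P.IsPrime := Ideal.isPrime_of_prime hP
  have hPb : P ≠ ⊥ := hP.ne_zero
  rcases Nat.lt_or_ge i 1 with h0 | h1
  · have : i = 0 := by omega
    subst this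
    rw [pow_zero, Ideal.one_eq_top]
    exact gt_top K
  · intro _
    refine ⟨{P}, ?_, ?_⟩
    · intro Q hQ
      rw [Finset.mem_singleton] at hQ
      subst hQ
      exact ⟨hPp, Ideal.pow_le_self (by omega)⟩
    · intro _ η hη a h02
      rw [Finset.card_singleton, pow_one]
      exact h4 K P hPp hPb i h1 η hη a h02

open Pool.Agent.H29.BH in
theorem pf_F_5 (h4 : F_4) (hCR : Pool.Agent.H23.BG.L_CR) : F_5 := by
  intro K _ _ f hf _ η hη a h02
  have hall : GT K f := by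
    refine induction_on_coprime f ?_ ?_ ?_ ?_
    · intro h
      exact absurd rfl h
    · intro x hx
      rw [Ideal.isUnit_iff.1 hx]
      exact gt_top K
    · intro p i hp
      exact gt_pow h4 K i hp
    · intro x y hxy h1 h2
      exact gt_prod hCR K (gl_cop hxy) h1 h2
  obtain ⟨S, hS, HS⟩ := hall hf
  refine (HS η hη a h02).trans ?_
  have h6 := ac_card hf S (fun P hP => ac_prime hf (hS P hP))
    (fun P hP => Ideal.dvd_iff_le.2 (hS P hP).2)
  have h7 : (2 : ℝ) ^ S.card ≤ ((dvs K f).card : ℝ) := by exact_mod_cast h6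
  refine mul_le_mul_of_nonneg_right h7 ?_
  unfold Nf
  positivity

end Pool.Agent.H68.BH
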