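import Pool.Agent.H29.BH.Targets1

/-!
# F_4 of bh_modules: the degenerate complete sum modulo a prime power (MP_52e316_nt)
-/

set_option autoImplicit false

open NumberField

namespace Pool.Agent.H68.BH

open Pool.Agent.H23.LB
open Pool.Agent.H29.TC (LC MC hom_sum)
open Pool.Agent.H23.BG (c4)

section Ring

variable {R : Type} [CommRing R] [Fintype R]

/-- the full sum with a nonzero difference vanishes -/
theorem f4_zero {η : R → ℂ} (hη : MC η) (h : R)
    (hp : ∃ r : R, IsUnit (1 + r * h) ∧ η (1 + r * h) ≠ 1) : ∑ u : R, η (1 + u * h) = 0 := by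
  obtain ⟨r, hr, hr'⟩ := hp
  obtain ⟨g, hg⟩ := hr
  let e : R ≃ R :=
    { toFun := fun u => u * g + r
      invFun := fun u => (u - r) * (g⁻¹ : Rˣ)
      left_inv := fun u => by simp [mul_assoc]
      right_inv := fun u => by simp [mul_assoc] }
  have h1 : ∑ u : R, η (1 + u * h) = ∑ u : R, η (1 + e u * h) :=
    (Equiv.sum_comp e fun u => η (1 + u * h)).symm
  have h2 : ∀ u, η (1 + e u * h) = η g * η (1 + u * h) := by
    intro u
    rw [← hη.mul]
    congr 1
    show 1 + (u * g + r) * h = g * (1 + u * h)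
    rw [hg]
    ring
  have h3 : ∑ u : R, η (1 + u * h) = η g * ∑ u : R, η (1 + u * h) := by
    conv_lhs => rw [h1]
    rw [Finset.mul_sum]
    exact Finset.sum_congr rfl fun u _ => h2 u
  have h4 : (η g - 1) * ∑ u : R, η (1 + u * h) = 0 := by
    rw [sub_mul, ← h3, one_mul, sub_self]
  rcases mul_eq_zero.1 h4 with h5 | h5
  · rw [hg] at h5
    exact absurd (sub_eq_zero.1 h5) hr'
  · exact h5

/-- the term of the sum -/
noncomputable def tm (η : R → ℂ) (a₁ a₃ y : R) : ℂ :=
  η (y + a₁) * (starRingEnd ℂ) (η (y + a₃))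

omit [Fintype R] in
theorem tm_norm {η : R → ℂ} (hη : MC η) (a₁ a₃ y : R) : ‖tm η a₁ a₃ y‖ ≤ 1 := by
  unfold tm
  rw [norm_mul, RCLike.norm_conj]
  exact mul_le_one₀ (hη.norm_le _) (norm_nonneg _) (hη.norm_le _)

omit [Fintype R] in
/-- the term in terms of the inverse -/
theorem tm_eq {η : R → ℂ} (hη : MC η) {a₁ a₃ y c : R} (hc : (y + a₃) * c = 1) :
    tm η a₁ a₃ y = η (1 + c * (a₁ - a₃)) := by
  have hu : IsUnit (y + a₃) := IsUnit.of_mul_eq_one c hc
  unfold tm
  have h1 : y + a₁ = (1 + c * (a₁ - a₃)) * (y + a₃) := by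
    linear_combination (-(a₁ - a₃)) * hc
  rw [h1, hη.mul, mul_assoc, mul_comm (η (y + a₃)), hη.conj_mul hu, mul_one]

open scoped Classical in
/-- the case where the difference is annihilated by the maximal ideal -/
theorem f4_soc {η : R → ℂ} (hη : MC η) (m : Ideal R) (hm : ∀ x, x ∈ m ↔ ¬ IsUnit x)
    (a₀ a₁ a₃ : R) (hp : ∃ r : R, IsUnit (1 + r * (a₁ - a₃)) ∧ η (1 + r * (a₁ - a₃)) ≠ 1)
    (hs : ∀ x ∈ m, x * (a₁ - a₃) = 0) :
    ‖∑ y : R, if IsUnit (y + a₀) then tm η a₁ a₃ y else 0‖ ≤ 2 * (Nat.card m : ℝ) := by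
  have hcard : ∀ a : R, ((Finset.univ.filter fun y : R => y + a ∈ m).card : ℝ) =
      (Nat.card m : ℝ) := by
    intro a
    have h1 : (Finset.univ.filter fun y : R => y + a ∈ m).card = Nat.card {y : R // y + a ∈ m} := by
      rw [Nat.card_eq_fintype_card, Fintype.card_subtype]
    rw [h1]
    congr 1
    refine Nat.card_congr ?_
    exact
      { toFun := fun y => ⟨y.1 + a, y.2⟩
        invFun := fun x => ⟨x.1 - a, by rw [sub_add_cancel]; exact x.2⟩
        left_inv := fun y => by simp
        right_inv := fun x => by simp }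
  -- the full sum
  have hfull : ∑ y : R, tm η a₁ a₃ y = -(Nat.card m : ℂ) := by
    have h1 : ∑ y : R, tm η a₁ a₃ y =
        ∑ x : R, if IsUnit x then η (1 + Ring.inverse x * (a₁ - a₃)) else 0 := by
      rw [← Equiv.sum_comp (Equiv.addRight a₃)
        (fun x => if IsUnit x then η (1 + Ring.inverse x * (a₁ - a₃)) else 0)]
      refine Finset.sum_congr rfl fun y _ => ?_
      show tm η a₁ a₃ y = if IsUnit (y + a₃) then η (1 + Ring.inverse (y + a₃) * (a₁ - a₃)) else 0
      split_ifs with hu
      · exact tm_eq hη (Ring.mul_inverse_cancel _ hu)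
      · unfold tm
        rw [hη.zero _ hu, map_zero, mul_zero]
    have h2 : ∑ x : R, (if IsUnit x then η (1 + Ring.inverse x * (a₁ - a₃)) else 0) =
        ∑ x : R, if IsUnit x then η (1 + x * (a₁ - a₃)) else 0 := by
      have h3 : ∀ x : R, Ring.inverse (if IsUnit x then Ring.inverse x else x) =
          (if IsUnit x then x else Ring.inverse x) := by
        intro x
        split_ifs with hx
        · obtain ⟨u, rfl⟩ := hx
          rw [Ring.inverse_unit, Ring.inverse_unit, inv_inv]
        · rfl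
      let e : R ≃ R :=
        { toFun := fun x => if IsUnit x then Ring.inverse x else x
          invFun := fun x => if IsUnit x then Ring.inverse x else x
          left_inv := fun x => by
            by_cases hx : IsUnit x
            · have h4 : IsUnit (Ring.inverse x) := by
                obtain ⟨u, rfl⟩ := hx
                rw [Ring.inverse_unit]
                exact Units.isUnit _
              obtain ⟨u, rfl⟩ := hx
              simp only [if_pos u.isUnit, Ring.inverse_unit, if_pos (u⁻¹).isUnit, inv_inv]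
            · simp only [if_neg hx]
          right_inv := fun x => by
            by_cases hx : IsUnit x
            · obtain ⟨u, rfl⟩ := hx
              simp only [if_pos u.isUnit, Ring.inverse_unit, if_pos (u⁻¹).isUnit, inv_inv]
            · simp only [if_neg hx] }
      rw [← Equiv.sum_comp e fun x => if IsUnit x then η (1 + x * (a₁ - a₃)) else 0]
      refine Finset.sum_congr rfl fun x _ => ?_
      show _ = if IsUnit (if IsUnit x then Ring.inverse x else x) then
        η (1 + (if IsUnit x then Ring.inverse x else x) * (a₁ - a₃)) else 0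
      by_cases hx : IsUnit x
      · obtain ⟨u, rfl⟩ := hx
        simp only [if_pos u.isUnit, Ring.inverse_unit, if_pos (u⁻¹).isUnit]
      · simp only [if_neg hx]
    have h4 : ∑ x : R, (if IsUnit x then η (1 + x * (a₁ - a₃)) else 0) =
        ∑ x : R, η (1 + x * (a₁ - a₃)) - ∑ x : R, if x ∈ m then (1 : ℂ) else 0 := by
      rw [← Finset.sum_sub_distrib]
      refine Finset.sum_congr rfl fun x _ => ?_
      by_cases hx : IsUnit x
      · rw [if_pos hx, if_neg (fun h => (hm x).1 h hx), sub_zero]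
      · have hxm := (hm x).2 hx
        rw [if_neg hx, if_pos hxm, hs x hxm, add_zero, hη.one, sub_self]
    rw [h1, h2, h4, f4_zero hη _ hp, zero_sub]
    congr 1
    rw [Finset.sum_ite, Finset.sum_const_zero, add_zero, Finset.sum_const, nsmul_eq_mul, mul_one]
    have h5 := hcard 0
    simp only [add_zero] at h5
    exact_mod_cast h5
  have h1 : ∑ y : R, (if IsUnit (y + a₀) then tm η a₁ a₃ y else 0) =
      ∑ y : R, tm η a₁ a₃ y - ∑ y ∈ Finset.univ.filter (fun y : R => y + a₀ ∈ m),
        tm η a₁ a₃ y := by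
    rw [Finset.sum_filter, ← Finset.sum_sub_distrib]
    refine Finset.sum_congr rfl fun y _ => ?_
    by_cases hu : IsUnit (y + a₀)
    · rw [if_pos hu, if_neg (fun h => (hm _).1 h hu), sub_zero]
    · rw [if_neg hu, if_pos ((hm _).2 hu), sub_self]
  rw [h1, hfull]
  refine (norm_sub_le _ _).trans ?_
  have h2 : ‖∑ y ∈ Finset.univ.filter (fun y : R => y + a₀ ∈ m), tm η a₁ a₃ y‖ ≤
      (Nat.card m : ℝ) := by
    refine (norm_sum_le _ _).trans ?_
    refine (Finset.sum_le_card_nsmul _ _ 1 fun y _ => tm_norm hη _ _ _).trans ?_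
    rw [nsmul_eq_mul, mul_one, hcard]
  rw [norm_neg, Complex.norm_natCast]
  linarith

open scoped Classical in
/-- the case where the difference is not annihilated by the maximal ideal -/
theorem f4_van {η : R → ℂ} (hη : MC η) (m : Ideal R) (hm : ∀ x, x ∈ m ↔ ¬ IsUnit x) (n : ℕ)
    (hn : m ^ n = ⊥) (hp : ∀ w : R, w ≠ 0 → ∃ r : R, IsUnit (1 + r * w) ∧ η (1 + r * w) ≠ 1)
    (a₀ a₁ a₃ : R) (hs : ∃ x ∈ m, x * (a₁ - a₃) ≠ 0) :
    ∑ y : R, (if IsUnit (y + a₀) then tm η a₁ a₃ y else 0) = 0 := by
  obtain ⟨x, hx, hxh⟩ := hs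
  -- the element of the socle
  have hex : ∃ k, ∀ z ∈ m ^ k, z * (a₁ - a₃) = 0 := ⟨n, fun z hz => by
    rw [hn, Ideal.mem_bot] at hz
    rw [hz, zero_mul]⟩
  classical
  have hk := Nat.find_spec hex
  have hk0 : Nat.find hex ≠ 0 := by
    intro h0
    rw [h0, pow_zero, Ideal.one_eq_top] at hk
    exact hxh (hk x Submodule.mem_top)
  obtain ⟨k, hkk⟩ := Nat.exists_eq_succ_of_ne_zero hk0
  have hk' := Nat.find_min hex (m := k) (by omega)
  push Not at hk'
  obtain ⟨t, ht, hth⟩ := hk'
  have htm : ∀ z ∈ m, z * (t * (a₁ - a₃)) = 0 := by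
    intro z hz
    rw [← mul_assoc]
    refine hk _ ?_
    rw [hkk, Nat.succ_eq_add_one, pow_succ']
    exact Ideal.mul_mem_mul hz ht
  have htm' : t ∈ m := by
    rw [hm]
    rintro ⟨u, rfl⟩
    apply hxh
    have h1 := htm x hx
    calc x * (a₁ - a₃) = (u⁻¹ : Rˣ) * (x * (u * (a₁ - a₃))) := by
          have : (u⁻¹ : Rˣ) * (u : R) = 1 := by simp
          linear_combination (-(x * (a₁ - a₃))) * this
      _ = 0 := by rw [h1, mul_zero]
  have hmw : t * (a₁ - a₃) ∈ m := Ideal.mul_mem_right _ _ htm'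
  have hww : (t * (a₁ - a₃)) * (t * (a₁ - a₃)) = 0 := htm _ hmw
  have hun : ∀ z ∈ m, ∀ y : R, IsUnit (y + z) ↔ IsUnit y := by
    intro z hz y
    rw [← not_iff_not, ← hm, ← hm]
    exact ⟨fun h => by simpa using Ideal.sub_mem _ h hz, fun h => Ideal.add_mem _ h hz⟩
  -- the additive character
  have hch : ∑ r : R, η (1 + r * (t * (a₁ - a₃))) = 0 := f4_zero hη _ (hp _ hth)
  -- the shift
  have key : ∀ y r : R, (if IsUnit (y + r * t + a₀) then tm η a₁ a₃ (y + r * t) else 0) =
      (if IsUnit (y + a₀) then tm η a₁ a₃ y else 0) *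
        η (1 + (-(r * (Ring.inverse ((y + a₁) * (y + a₃))))) * (t * (a₁ - a₃))) := by
    intro y r
    have hrt : r * t ∈ m := Ideal.mul_mem_left _ _ htm'
    have e0 : y + r * t + a₀ = y + a₀ + r * t := by ring
    have e1 : y + r * t + a₁ = y + a₁ + r * t := by ring
    have e3 : y + r * t + a₃ = y + a₃ + r * t := by ring
    simp only [e0, hun _ hrt]
    by_cases h0 : IsUnit (y + a₀)
    · rw [if_pos h0, if_pos h0]
      unfold tm
      rw [e1, e3]
      by_cases h1 : IsUnit (y + a₁)
      · by_cases h3 : IsUnit (y + a₃)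
        · have hc := Ring.mul_inverse_cancel _ (h1.mul h3)
          generalize Ring.inverse ((y + a₁) * (y + a₃)) = c at hc
          have hs0 : r * t * (t * (a₁ - a₃)) = 0 := by
            rw [mul_assoc, htm t htm', mul_zero]
          have h4 : (y + a₁ + r * t) * (y + a₃) =
              (y + a₃ + r * t) * (y + a₁) * (1 + (-(r * c)) * (t * (a₁ - a₃))) := by
            linear_combination (r * (t * (a₁ - a₃))) * hc + (y + a₁) * r * c * hs0
          have h5 : η (y + a₁ + r * t) * η (y + a₃) = η (y + a₃ + r * t) * η (y + a₁) *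
              η (1 + (-(r * c)) * (t * (a₁ - a₃))) := by
            rw [← hη.mul, ← hη.mul, ← hη.mul, h4]
          have h6 := hη.conj_mul h3
          have h7 := hη.conj_mul ((hun _ hrt _).2 h3)
          calc η (y + a₁ + r * t) * (starRingEnd ℂ) (η (y + a₃ + r * t)) =
              (η (y + a₁ + r * t) * η (y + a₃)) * (starRingEnd ℂ) (η (y + a₃)) *
                (starRingEnd ℂ) (η (y + a₃ + r * t)) := by
                linear_combination (-(η (y + a₁ + r * t) *
                  (starRingEnd ℂ) (η (y + a₃ + r * t)))) * h6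
            _ = _ := by
                rw [h5]
                linear_combination (η (y + a₁) * η (1 + (-(r * c)) * (t * (a₁ - a₃))) *
                  (starRingEnd ℂ) (η (y + a₃))) * h7
        · rw [hη.zero _ h3, hη.zero _ (fun h => h3 ((hun _ hrt _).1 h)), map_zero, mul_zero,
            mul_zero, zero_mul]
      · rw [hη.zero _ h1, hη.zero _ (fun h => h1 ((hun _ hrt _).1 h)), zero_mul, zero_mul,
          zero_mul]
    · rw [if_neg h0, if_neg h0, zero_mul]
  have hshift : ∀ r : R, ∑ y : R, (if IsUnit (y + a₀) then tm η a₁ a₃ y else 0) =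
      ∑ y : R, (if IsUnit (y + a₀) then tm η a₁ a₃ y else 0) *
        η (1 + (-(r * (Ring.inverse ((y + a₁) * (y + a₃))))) * (t * (a₁ - a₃))) := by
    intro r
    rw [← Equiv.sum_comp (Equiv.addRight (r * t))]
    exact Finset.sum_congr rfl fun y _ => key y r
  have hsum : (Fintype.card R : ℂ) * ∑ y : R, (if IsUnit (y + a₀) then tm η a₁ a₃ y else 0) =
      0 := by
    calc (Fintype.card R : ℂ) * ∑ y : R, (if IsUnit (y + a₀) then tm η a₁ a₃ y else 0) =
        ∑ r : R, ∑ y : R, (if IsUnit (y + a₀) then tm η a₁ a₃ y else 0) *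
        η (1 + (-(r * (Ring.inverse ((y + a₁) * (y + a₃))))) * (t * (a₁ - a₃))) := by
          rw [← Finset.sum_congr rfl fun r _ => hshift r, Finset.sum_const, nsmul_eq_mul]
          rfl
      _ = ∑ y : R, ∑ r : R, (if IsUnit (y + a₀) then tm η a₁ a₃ y else 0) *
        η (1 + (-(r * (Ring.inverse ((y + a₁) * (y + a₃))))) * (t * (a₁ - a₃))) :=
          Finset.sum_comm
      _ = 0 := by
          refine Finset.sum_eq_zero fun y _ => ?_
          rw [← Finset.mul_sum]
          by_cases h1 : IsUnit (y + a₁)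
          · by_cases h3 : IsUnit (y + a₃)
            · obtain ⟨u, hu⟩ := h1.mul h3
              rw [← hu, Ring.inverse_unit]
              let e : R ≃ R :=
                { toFun := fun r => -(r * (u⁻¹ : Rˣ))
                  invFun := fun r => -(r * u)
                  left_inv := fun r => by simp [mul_assoc]
                  right_inv := fun r => by simp [mul_assoc] }
              have h5 : ∑ r : R, η (1 + (-(r * (u⁻¹ : Rˣ))) * (t * (a₁ - a₃))) = 0 := by
                rw [← hch, ← Equiv.sum_comp e fun r => η (1 + r * (t * (a₁ - a₃)))]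
                rfl
              rw [h5, mul_zero]
            · have : tm η a₁ a₃ y = 0 := by
                unfold tm
                rw [hη.zero _ h3, map_zero, mul_zero]
              rw [this, ite_self, zero_mul]
          · have : tm η a₁ a₃ y = 0 := by
              unfold tm
              rw [hη.zero _ h1, zero_mul]
            rw [this, ite_self, zero_mul]
  rcases mul_eq_zero.1 hsum with h | h
  · have : Nonempty R := ⟨0⟩
    exact absurd h (by exact_mod_cast Fintype.card_ne_zero)
  · exact h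

/-- the cardinality of the maximal ideal -/
theorem f4_card (m : Ideal R) (h : R) (hs : ∀ x ∈ m, x * h = 0) :
    Nat.card m ≤ Nat.card (R ⧸ Ideal.span {h}) := by
  have h1 : Nat.card R = Nat.card (R ⧸ m) * Nat.card m :=
    AddSubgroup.card_eq_card_quotient_mul_card_addSubgroup m.toAddSubgroup
  have h2 : Nat.card R = Nat.card (R ⧸ Ideal.span {h}) * Nat.card (Ideal.span {h}) :=
    AddSubgroup.card_eq_card_quotient_mul_card_addSubgroup (Ideal.span {h}).toAddSubgroup
  have h3 : Nat.card (Ideal.span {h}) ≤ Nat.card (R ⧸ m) := by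
    let g : R ⧸ m →ₗ[R] R := Submodule.liftQ m (LinearMap.toSpanSingleton R R h) (by
      intro x hx
      rw [LinearMap.mem_ker, LinearMap.toSpanSingleton_apply, smul_eq_mul]
      exact hs x hx)
    have h4 : LinearMap.range g = Ideal.span {h} := by
      rw [Submodule.range_liftQ]
      exact (LinearMap.range_toSpanSingleton h)
    rw [← h4]
    exact Nat.card_le_card_of_surjective g.rangeRestrict g.surjective_rangeRestrict
  have h5 : 0 < Nat.card (R ⧸ m) := Nat.card_pos
  rw [h1] at h2
  have h6 : Nat.card (R ⧸ m) * Nat.card m ≤ Nat.card (R ⧸ m) * Nat.card (R ⧸ Ideal.span {h}) := by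
    rw [h2, mul_comm]
    exact Nat.mul_le_mul_right _ h3
  exact Nat.le_of_mul_le_mul_left h6 h5

/-- the bound in a finite local ring -/
theorem f4_ring {η : R → ℂ} (hη : MC η) (m : Ideal R) (hm : ∀ x, x ∈ m ↔ ¬ IsUnit x) (n : ℕ)
    (hn : m ^ n = ⊥) (hp : ∀ w : R, w ≠ 0 → ∃ r : R, IsUnit (1 + r * w) ∧ η (1 + r * w) ≠ 1)
    (a : Fin 4 → R) (h02 : a 0 = a 2) :
    ‖c4 η a‖ ≤ 2 * (Nat.card (R ⧸ Ideal.span {a 1 - a 3}) : ℝ) := by
  classical
  have h1 : c4 η a = ∑ y : R, (if IsUnit (y + a 0) then tm η (a 1) (a 3) y else 0) := by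
    unfold c4
    refine Finset.sum_congr rfl fun y _ => ?_
    rw [← h02]
    unfold tm
    split_ifs with hu
    · have := hη.conj_mul hu
      linear_combination (η (y + a 1) * (starRingEnd ℂ) (η (y + a 3))) * this
    · rw [hη.zero _ hu, zero_mul, zero_mul, zero_mul]
  by_cases h0 : a 1 - a 3 = 0
  · have h2 : ‖c4 η a‖ ≤ (Nat.card R : ℝ) := by
      rw [h1]
      refine (norm_sum_le _ _).trans ?_
      refine (Finset.sum_le_card_nsmul _ _ 1 fun y _ => ?_).trans ?_
      · split_ifs
        · exact tm_norm hη _ _ _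
        · rw [norm_zero]
          exact zero_le_one
      · rw [nsmul_eq_mul, mul_one, Nat.card_eq_fintype_card]
        rfl
    have h3 : Nat.card (R ⧸ Ideal.span {a 1 - a 3}) = Nat.card R := by
      rw [h0, Ideal.span_singleton_eq_bot.2 rfl]
      exact Nat.card_congr (RingEquiv.quotientBot R).toEquiv
    rw [h3]
    have : (0 : ℝ) ≤ (Nat.card R : ℝ) := Nat.cast_nonneg _
    linarith
  · by_cases hs : ∀ x ∈ m, x * (a 1 - a 3) = 0
    · rw [h1]
      refine (f4_soc hη m hm _ _ _ (hp _ h0) hs).trans ?_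
      have := f4_card m _ hs
      have h4 : (Nat.card m : ℝ) ≤ (Nat.card (R ⧸ Ideal.span {a 1 - a 3}) : ℝ) := by
        exact_mod_cast this
      linarith
    · push Not at hs
      rw [h1, f4_van hη m hm n hn hp _ _ _ hs, norm_zero]
      positivity

end Ring

open Pool.Agent.H29.BH in
theorem pf_F_4 : F_4 := by
  intro K _ _ P hP hP0 e he _ η hη a h02
  have hmax : P.IsMaximal := hP.isMaximal hP0
  have hle : P ^ e ≤ P := Ideal.pow_le_self (by omega)
  have hm : ∀ x : 𝓞 K ⧸ P ^ e, x ∈ P.map (Ideal.Quotient.mk (P ^ e)) ↔ ¬ IsUnit x := by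
    intro x
    obtain ⟨x, rfl⟩ := Ideal.Quotient.mk_surjective x
    have h1 : Ideal.Quotient.mk (P ^ e) x ∈ P.map (Ideal.Quotient.mk (P ^ e)) ↔ x ∈ P := by
      rw [Ideal.mem_map_iff_of_surjective _ Ideal.Quotient.mk_surjective]
      constructor
      · rintro ⟨y, hy, hyx⟩
        have := Ideal.Quotient.eq.1 hyx
        have h2 := P.sub_mem hy (hle this)
        simpa using h2
      · intro hx
        exact ⟨x, hx, rfl⟩
    rw [h1]
    constructor
    · rintro hx ⟨u, hu⟩
      obtain ⟨y, hy⟩ := Ideal.Quotient.mk_surjective ((u⁻¹ : (𝓞 K ⧸ P ^ e)ˣ) : 𝓞 K ⧸ P ^ e)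
      have h2 : Ideal.Quotient.mk (P ^ e) (x * y) = Ideal.Quotient.mk (P ^ e) 1 := by
        rw [map_mul, ← hu, hy, Units.mul_inv, map_one]
      have h3 := hle (Ideal.Quotient.eq.1 h2)
      have h4 : (1 : 𝓞 K) ∈ P := by
        have := P.sub_mem (P.mul_mem_right y hx) h3
        simpa using this
      exact hmax.ne_top ((Ideal.eq_top_iff_one _).2 h4)
    · intro hx
      by_contra hxP
      apply hx
      obtain ⟨y, i, hi, hyi⟩ := hmax.exists_inv hxP
      have h2 : IsNilpotent (Ideal.Quotient.mk (P ^ e) i) := ⟨e, by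
        rw [← map_pow, Ideal.Quotient.eq_zero_iff_mem]
        exact Ideal.pow_mem_pow hi e⟩
      have h3 : Ideal.Quotient.mk (P ^ e) y * Ideal.Quotient.mk (P ^ e) x =
          1 - Ideal.Quotient.mk (P ^ e) i := by
        rw [← map_mul, ← map_one (Ideal.Quotient.mk (P ^ e)), ← map_sub, ← hyi,
          add_sub_cancel_right]
      have h4 := h2.isUnit_one_sub
      rw [← h3] at h4
      exact isUnit_of_mul_isUnit_right h4
  have hn : P.map (Ideal.Quotient.mk (P ^ e)) ^ e = ⊥ := by
    rw [← Ideal.map_pow, Ideal.map_quotient_self]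
  have key := f4_ring hη.mc _ hm e hn hη.prim (fun i => Ideal.Quotient.mk (P ^ e) (a i)) (by
    show Ideal.Quotient.mk (P ^ e) (a 0) = Ideal.Quotient.mk (P ^ e) (a 2)
    rw [h02])
  refine key.trans (le_of_eq ?_)
  congr 1
  have h5 : Nat.card ((𝓞 K ⧸ P ^ e) ⧸ Ideal.span {Ideal.Quotient.mk (P ^ e) (a 1) -
      Ideal.Quotient.mk (P ^ e) (a 3)}) = Ideal.absNorm (P ^ e ⊔ Ideal.span {a 1 - a 3}) := by
    have h6 : Ideal.span {Ideal.Quotient.mk (P ^ e) (a 1) - Ideal.Quotient.mk (P ^ e) (a 3)} =
        (Ideal.span {a 1 - a 3}).map (Ideal.Quotient.mk (P ^ e)) := by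
      rw [Ideal.map_span, Set.image_singleton, map_sub]
    rw [h6, Nat.card_congr (DoubleQuot.quotQuotEquivQuotSup _ _).toEquiv]
    rfl
  show (Nat.card ((𝓞 K ⧸ P ^ e) ⧸ Ideal.span {Ideal.Quotient.mk (P ^ e) (a 1) -
      Ideal.Quotient.mk (P ^ e) (a 3)}) : ℝ) = _
  rw [h5]
  rfl

end Pool.Agent.H68.BH
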